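import Pool.Agent.H7.LP.Targets

/-!
# MP_5607ba_lc, groups with locally compact pieces: row REC (the recursion)
-/

set_option autoImplicit false

open Set Filter Topology

namespace Pool.Agent.H75.LP

open Pool.Agent.H7.LP

section

variable {G X : Type} [Group G] [TopologicalSpace G] {M : Subgroup G} [MeasurableSpace X]
  [MulAction M X] {L : LPD G} {Y : Hit M X} (S : Sys L Y)

/-- the value of a word -/
private def ev : List (ℕ × ℕ × ℕ) → G
  | [] => 1
  | p :: l => S.gm p.1 * S.kap p.2.1 p.2.2 * ev l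

private theorem ms_ev (p : (ℕ × ℕ) × (ℕ × ℕ) × ℕ) : MeasurableSet {w : St | w p = true} := by
  have h : Measurable fun w : St => w p := measurable_pi_apply p
  exact h (MeasurableSet.of_discrete (s := {true}))

private theorem ms_pres (q : ℕ) : MeasurableSet {w : St | pres w q} := by
  unfold pres
  rw [setOf_exists]
  exact MeasurableSet.iUnion fun n => ms_ev _

private theorem ms_step (s : ℕ) (i : ℕ × ℕ) (b : G) (i' : ℕ × ℕ) (b' : G) :
    MeasurableSet {w : St | S.Step w s i b i' b'} := by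
  have h1 : {w : St | S.Step w s i b i' b'} =
      {w : St | ∃ n m, w (i', i, n) = true ∧ b' = S.gm n * S.kap i.1 m * b} ∩
      ({w : St | pres w (Nat.unpair s).1}ᶜ ∪ {w : St | ∃ n, w (i', Nat.unpair s, n) = true}) ∩
      {w : St | ∀ r ∈ L.R (S.k i'.1), b'⁻¹ * r * b' ∈ L.R s} := by
    ext w
    constructor
    · rintro ⟨h1, h2, h3⟩
      refine ⟨⟨h1, ?_⟩, h3⟩
      by_cases h : pres w (Nat.unpair s).1
      · exact Or.inr (h2 h)
      · exact Or.inl h
    · rintro ⟨⟨h1, h2⟩, h3⟩
      refine ⟨h1, fun h => ?_, h3⟩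
      rcases h2 with h2 | h2
      · exact absurd h h2
      · exact h2
  rw [h1]
  refine (MeasurableSet.inter ?_ ((ms_pres _).compl.union ?_)).inter (MeasurableSet.const _)
  · rw [setOf_exists]
    refine MeasurableSet.iUnion fun n => ?_
    rw [setOf_exists]
    exact MeasurableSet.iUnion fun m => (ms_ev _).inter (MeasurableSet.const _)
  · rw [setOf_exists]
    exact MeasurableSet.iUnion fun n => ms_ev _

end

theorem pf_REC (h1 : T_RCZ) : T_REC := by
  intro G X _ _ _ _ _ _ _ L M _ Y S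
  obtain ⟨F, hF, hF0, hF1⟩ := h1 St ((ℕ × ℕ) × List (ℕ × ℕ × ℕ))
    (fun w a => pres w a.1.1 ∧ ev S a.2 = 1)
    (fun w s a a' => S.Step w s a.1 (ev S a.2) a'.1 (ev S a'.2))
    (fun a => (ms_pres _).inter (MeasurableSet.const _))
    (fun s a a' => ms_step S s a.1 _ a'.1 _)
  refine ⟨fun w s => ((F w s).1, ev S (F w s).2), fun s => ?_, fun w hw => ?_,
    fun w s hw => ?_⟩
  · let _ : MeasurableSpace ((ℕ × ℕ) × List (ℕ × ℕ × ℕ)) := ⊤
    have h2 : Measurable fun w => F w s := measurable_to_countable' fun a => hF s a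
    have h3 : Measurable fun a : (ℕ × ℕ) × List (ℕ × ℕ × ℕ) => (a.1, ev S a.2) :=
      measurable_from_top
    exact h3.comp h2
  · obtain ⟨q, hq⟩ := hw
    exact hF0 w ⟨((q, 0), []), hq, rfl⟩
  · obtain ⟨i', b', hs⟩ := hw
    obtain ⟨n, m, hn, hb⟩ := hs.quo
    have h2 : ev S ((n, (F w s).1.1, m) :: (F w s).2) = b' := hb.symm
    refine hF1 w s ⟨(i', (n, (F w s).1.1, m) :: (F w s).2), ?_⟩
    simp only [h2]
    exact hs

end Pool.Agent.H75.LP
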